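import Mathlib
import Pool.Agent.TH654.FC.Atoms

/-!
Almost periods along a sparse sequence of scales.
-/

set_option autoImplicit false

open MeasureTheory Real Filter Topology

namespace Pool.Agent.N254.SP

open Pool.Agent.H261R2.FU Pool.Agent.TH654.FC

/-- the rigidity of good approximations, sparse scales -/
lemma rational_of_close' (n : ℕ → ℕ) (N : ℕ → ℕ) (k0 : ℕ) (hN : StrictMono N)
    (hn1 : ∀ k, 1 ≤ n k) (hn2 : ∀ k, n k ≤ 2 ^ N k) (x : UnitAddCircle)
    (hx : ∀ k, k0 ≤ k → ‖n k • x‖ < Real.exp (-(5 * N (k + 1)))) : x ∈ Rat' := by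
  obtain ⟨y, rfl⟩ := QuotientAddGroup.mk_surjective x
  change ∀ k, k0 ≤ k → ‖n k • ((y : ℝ) : UnitAddCircle)‖ < _ at hx
  set m : ℕ → ℤ := fun k => round ((n k : ℝ) * y) with hm
  have h1 : ∀ k, k0 ≤ k → |(n k : ℝ) * y - m k| < Real.exp (-(5 * N (k + 1))) := by
    intro k hk
    have := hx k hk
    rwa [nsmul_coe, norm_coe_eq] at this
  have hNk : ∀ k, k ≤ N k := hN.id_le
  have he5 : (2 : ℝ) * Real.exp (-5) < 1 / 2 := by
    have h2 : (2.7 : ℝ) < Real.exp 1 := lt_trans (by norm_num) Real.exp_one_gt_d9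
    have h3 : Real.exp 5 = Real.exp 1 ^ 5 := by rw [← Real.exp_nat_mul]; norm_num
    have h4 : (4 : ℝ) < Real.exp 5 := by
      rw [h3]
      calc (4 : ℝ) < 2.7 ^ 5 := by norm_num
        _ ≤ Real.exp 1 ^ 5 := by gcongr
    rw [Real.exp_neg]
    rw [← div_eq_mul_inv, div_lt_div_iff₀ (Real.exp_pos _) (by norm_num)]
    linarith
  have hstep : ∀ k, k0 ≤ k → m k * (n (k + 1) : ℤ) = m (k + 1) * (n k : ℤ) := by
    intro k hk
    have a1 := h1 k hk
    have a2 := h1 (k + 1) (by omega)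
    set M := N (k + 1) with hM
    have hM1 : 1 ≤ M := le_trans (by omega) (hNk (k + 1))
    have b1 : N k ≤ M := (hN (Nat.lt_succ_self k)).le
    have b2 : M ≤ N (k + 1 + 1) := (hN (Nat.lt_succ_self (k + 1))).le
    have c1 : ((n (k + 1) : ℕ) : ℝ) ≤ 2 ^ M := by exact_mod_cast hn2 (k + 1)
    have c2 : ((n k : ℕ) : ℝ) ≤ 2 ^ M := by
      have : ((n k : ℕ) : ℝ) ≤ 2 ^ N k := by exact_mod_cast hn2 k
      exact this.trans (pow_le_pow_right₀ (by norm_num) b1)
    have d1 : (2 : ℝ) ^ M * Real.exp (-(5 * M)) < 1 / 2 := by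
      have e1 : Real.exp (-(5 * (M : ℝ))) = Real.exp (-5) ^ M := by
        rw [← Real.exp_nat_mul]; congr 1; ring
      rw [e1, ← mul_pow]
      calc (2 * Real.exp (-5)) ^ M ≤ (2 * Real.exp (-5)) ^ 1 :=
            pow_le_pow_of_le_one (by positivity) (by linarith) hM1
        _ < 1 / 2 := by rw [pow_one]; exact he5
    have d2 : Real.exp (-(5 * (N (k + 1 + 1) : ℝ))) ≤ Real.exp (-(5 * (M : ℝ))) := by
      apply Real.exp_le_exp.mpr
      have : (M : ℝ) ≤ N (k + 1 + 1) := by exact_mod_cast b2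
      linarith
    have key : |((m k * (n (k + 1) : ℤ) - m (k + 1) * (n k : ℤ) : ℤ) : ℝ)| < 1 := by
      push_cast
      have e2 : (m k : ℝ) * (n (k + 1) : ℝ) - m (k + 1) * (n k : ℝ)
          = -(((n k : ℝ) * y - m k) * n (k + 1)) + ((n (k + 1) : ℝ) * y - m (k + 1)) * n k := by
        ring
      rw [e2]
      refine lt_of_le_of_lt (abs_add_le _ _) ?_
      rw [abs_neg, abs_mul, abs_mul, Nat.abs_cast, Nat.abs_cast]
      have f1 : |(n k : ℝ) * y - m k| * (n (k + 1) : ℝ) ≤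
          Real.exp (-(5 * (M : ℝ))) * 2 ^ M :=
        mul_le_mul a1.le c1 (by positivity) (Real.exp_pos _).le
      have f2 : |(n (k + 1) : ℝ) * y - m (k + 1)| * (n k : ℝ) ≤
          Real.exp (-(5 * (M : ℝ))) * 2 ^ M :=
        mul_le_mul (a2.le.trans d2) c2 (by positivity) (Real.exp_pos _).le
      linarith
    have : (m k * (n (k + 1) : ℤ) - m (k + 1) * (n k : ℤ) : ℤ) = 0 := by
      by_contra hne
      have h9 : (1 : ℤ) ≤ |m k * (n (k + 1) : ℤ) - m (k + 1) * (n k : ℤ)| :=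
        Int.one_le_abs hne
      have h10 : (1 : ℝ) ≤ |((m k * (n (k + 1) : ℤ) - m (k + 1) * (n k : ℤ) : ℤ) : ℝ)| := by
        exact_mod_cast h9
      linarith
    linarith
  have hq : ∀ k, k0 ≤ k → (m k : ℝ) / n k = m k0 / n k0 := by
    intro k hk
    induction k, hk using Nat.le_induction with
    | base => rfl
    | succ k hk ih =>
      rw [← ih]
      have h2 := hstep k hk
      have h3 : (m k : ℝ) * (n (k + 1) : ℝ) = m (k + 1) * (n k : ℝ) := by exact_mod_cast h2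
      have p1 : (0 : ℝ) < n k := by exact_mod_cast hn1 k
      have p2 : (0 : ℝ) < n (k + 1) := by exact_mod_cast hn1 (k + 1)
      rw [div_eq_div_iff p2.ne' p1.ne']
      linarith
  have hy : y = (m k0 : ℝ) / n k0 := by
    by_contra hne
    have hpos : 0 < |y - (m k0 : ℝ) / n k0| := abs_pos.mpr (sub_ne_zero.mpr hne)
    have hlim : Tendsto (fun k : ℕ => Real.exp (-(k : ℝ))) atTop (nhds 0) :=
      Real.tendsto_exp_neg_atTop_nhds_zero.comp tendsto_natCast_atTop_atTop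
    obtain ⟨k, hk1, hk2⟩ := ((hlim.eventually (gt_mem_nhds hpos)).and
      (eventually_ge_atTop k0)).exists
    have h2 := h1 k hk2
    have p1 : (1 : ℝ) ≤ n k := by exact_mod_cast hn1 k
    have h3 : |y - (m k0 : ℝ) / n k0| ≤ |(n k : ℝ) * y - m k| := by
      rw [← hq k hk2]
      have e : (n k : ℝ) * y - m k = n k * (y - (m k : ℝ) / n k) := by
        field_simp
      rw [e, abs_mul, Nat.abs_cast]
      nlinarith [abs_nonneg (y - (m k : ℝ) / n k)]
    have h4 : Real.exp (-(5 * (N (k + 1) : ℝ))) ≤ Real.exp (-(k : ℝ)) := by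
      apply Real.exp_le_exp.mpr
      have h5 : k ≤ N (k + 1) := le_trans (by omega) (hNk (k + 1))
      have h6 : (k : ℝ) ≤ N (k + 1) := by exact_mod_cast h5
      have h7 : (0 : ℝ) ≤ N (k + 1) := Nat.cast_nonneg _
      linarith
    linarith
  refine ⟨(m k0 : ℚ) / n k0, ?_⟩
  simp only
  push_cast
  rw [← hy]

theorem diverges' {p q : ℕ} (hp : 2 ≤ p) {κ : ℝ} (hC : NC p q κ)
    (μ : Measure UnitAddCircle) [IsProbabilityMeasure μ]
    (hμp : MeasurePreserving (fun x : UnitAddCircle => p • x) μ μ)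
    (hμq : MeasurePreserving (fun x : UnitAddCircle => q • x) μ μ)
    (hat : ∀ x : UnitAddCircle, μ {x} = 0)
    (N n : ℕ → ℕ) (hN : StrictMono N) (hn : ∀ k, 1 ≤ n k ∧ n k ≤ 2 ^ N k) :
    ¬ Summable (fun k : ℕ => (N (k + 1) : ℝ) ^ κ * ∫ x, ‖n k • x‖ ^ 2 ∂μ) := by
  obtain ⟨C, hC⟩ := hC
  intro hsum
  set r : ℝ := 1 / (1 + max (p : ℝ) (q : ℝ)) with hr
  have hr0 : 0 < r := by positivity
  set F : ℕ → ℝ := fun k => (N (k + 1) : ℝ) ^ κ * ∫ x, ‖n k • x‖ ^ 2 ∂μ with hF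
  have hNk : ∀ k, k ≤ N k := hN.id_le
  have hbound : ∀ k, μ.real {x : UnitAddCircle | Real.exp (-(5 * (N (k + 1) : ℝ))) ≤ ‖n k • x‖} ≤
      (|C| * 5 ^ κ * r⁻¹ ^ 2) * F k := by
    intro k
    set ν : Measure UnitAddCircle := μ.map (fun x : UnitAddCircle => n k • x) with hν
    have hmeas : Measurable (fun x : UnitAddCircle => n k • x) := by fun_prop
    have hνp : IsProbabilityMeasure ν := Measure.isProbabilityMeasure_map hmeas.aemeasurable
    have hNk : (1 : ℝ) ≤ N (k + 1) := by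
      exact_mod_cast le_trans (by omega : 1 ≤ k + 1) (hNk (k + 1))
    have h1 := hC ν hνp (mp_nsmul hμp _) (mp_nsmul hμq _) (5 * (N (k + 1) : ℝ)) (by linarith)
    have e1 : ν.real {x : UnitAddCircle | Real.exp (-(5 * (N (k + 1) : ℝ))) ≤ ‖x‖} =
        μ.real {x : UnitAddCircle | Real.exp (-(5 * (N (k + 1) : ℝ))) ≤ ‖n k • x‖} := by
      rw [hν, map_measureReal_apply hmeas (Pool.Agent.H706R2.measurable_norm_set _)]
      rfl
    have e2 : ν.real {x : UnitAddCircle | r ≤ ‖x‖} =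
        μ.real {x : UnitAddCircle | r ≤ ‖n k • x‖} := by
      rw [hν, map_measureReal_apply hmeas (Pool.Agent.H706R2.measurable_norm_set _)]
      rfl
    rw [e1, e2] at h1
    have h2 := chebyshev μ (n k) hr0
    have h3 : (5 * (N (k + 1) : ℝ)) ^ κ = 5 ^ κ * (N (k + 1) : ℝ) ^ κ :=
      Real.mul_rpow (by norm_num) (by linarith)
    have hNκ : 0 ≤ (N (k + 1) : ℝ) ^ κ := Real.rpow_nonneg (by linarith) _
    have h5κ : (0 : ℝ) ≤ 5 ^ κ := Real.rpow_nonneg (by norm_num) _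
    calc μ.real {x : UnitAddCircle | Real.exp (-(5 * (N (k + 1) : ℝ))) ≤ ‖n k • x‖}
        ≤ C * (5 * (N (k + 1) : ℝ)) ^ κ * μ.real {x : UnitAddCircle | r ≤ ‖n k • x‖} := h1
      _ ≤ |C| * (5 * (N (k + 1) : ℝ)) ^ κ * μ.real {x : UnitAddCircle | r ≤ ‖n k • x‖} := by
          apply mul_le_mul_of_nonneg_right _ measureReal_nonneg
          apply mul_le_mul_of_nonneg_right (le_abs_self _)
          exact Real.rpow_nonneg (by linarith) _
      _ ≤ |C| * (5 * (N (k + 1) : ℝ)) ^ κ * (r⁻¹ ^ 2 * ∫ x, ‖n k • x‖ ^ 2 ∂μ) := by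
          apply mul_le_mul_of_nonneg_left h2
          exact mul_nonneg (abs_nonneg _) (Real.rpow_nonneg (by linarith) _)
      _ = (|C| * 5 ^ κ * r⁻¹ ^ 2) * F k := by
          rw [h3, hF]; ring
  set A : ℕ → Set UnitAddCircle := fun k =>
    {x : UnitAddCircle | Real.exp (-(5 * (N (k + 1) : ℝ))) ≤ ‖n k • x‖} with hA
  have hsumA : Summable (fun k => μ.real (A k)) :=
    Summable.of_nonneg_of_le (fun k => measureReal_nonneg) hbound (hsum.mul_left _)
  have htsum : ∑' k, μ (A k) ≠ ⊤ := by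
    have e5 : ∀ k, μ (A k) = ENNReal.ofReal (μ.real (A k)) := fun k =>
      (ofReal_measureReal (measure_ne_top μ _)).symm
    simp_rw [e5]
    exact hsumA.tsum_ofReal_ne_top
  have hBC := ae_eventually_notMem htsum
  have hrat : ∀ᵐ x ∂μ, x ∈ Rat' := by
    filter_upwards [hBC] with x hx
    obtain ⟨k0, hk0⟩ := eventually_atTop.mp hx
    apply rational_of_close' n N k0 hN (fun k => (hn k).1) (fun k => (hn k).2) x
    intro k hk
    have := hk0 k hk
    simp only [hA, Set.mem_ofPred_eq, not_le] at this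
    exact this
  have hzero : μ Rat' = 0 := by
    have : Rat' = ⋃ y ∈ Rat', {y} := by simp
    rw [this]
    exact (measure_biUnion_null_iff rat_countable).mpr fun y _ => hat y
  have h1 : μ Rat'ᶜ = 0 := by
    rw [ae_iff] at hrat
    exact hrat
  have h2 : μ Set.univ = 0 := by
    rw [← Set.union_compl_self Rat']
    exact measure_union_null hzero h1
  rw [measure_univ] at h2
  exact one_ne_zero h2

/-- **The criterion**: almost periods along a sparse sequence of scales force the measure to be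
atomic. -/
theorem sparse {p q : ℕ} (hp : 2 ≤ p) (hq : 2 ≤ q) {κ : ℝ} (h : NC p q κ)
    (μ : Measure UnitAddCircle) [IsProbabilityMeasure μ]
    (hμp : MeasurePreserving (fun x : UnitAddCircle => p • x) μ μ)
    (hμq : MeasurePreserving (fun x : UnitAddCircle => q • x) μ μ)
    (N n : ℕ → ℕ) (hN : StrictMono N) (hn : ∀ k, 1 ≤ n k ∧ n k ≤ 2 ^ N k)
    (hs : Summable (fun k : ℕ => (N (k + 1) : ℝ) ^ κ * (1 - (∫ x, fourier (n k : ℤ) x ∂μ).re))) :
    μ Tors = 1 := by
  by_contra hne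
  have hc0 : μ Torsᶜ ≠ 0 := by
    intro h0
    apply hne
    rwa [prob_compl_eq_zero_iff tors_meas] at h0
  have hct : μ Torsᶜ ≠ ⊤ := measure_ne_top _ _
  set ν : Measure UnitAddCircle := (μ Torsᶜ)⁻¹ • μ.restrict Torsᶜ with hν
  have hνprob : IsProbabilityMeasure ν := by
    refine ⟨?_⟩
    rw [hν]
    simp only [Measure.smul_apply, Measure.restrict_apply_univ, smul_eq_mul]
    exact ENNReal.inv_mul_cancel hc0 hct
  have hat : ∀ x : UnitAddCircle, ν {x} = 0 := by
    intro x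
    rw [hν, Measure.smul_apply, Measure.restrict_apply (measurableSet_singleton _)]
    by_cases hx : x ∈ Tors
    · have : ({x} ∩ Torsᶜ : Set UnitAddCircle) = ∅ := by
        ext y; simp only [Set.mem_inter_iff, Set.mem_singleton_iff, Set.mem_compl_iff,
          Set.mem_empty_iff_false, iff_false, not_and, not_not]
        rintro rfl; exact hx
      rw [this]; simp
    · have h0 := atom_tors hp hμp hx
      have : μ ({x} ∩ Torsᶜ) = 0 := measure_mono_null Set.inter_subset_left h0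
      rw [this]; simp
  have hdiv := diverges' hp h ν (continuous_part hp hμp) (continuous_part hq hμq) hat N n hN hn
  apply hdiv
  set c : ℝ := (μ Torsᶜ).toReal⁻¹ with hc
  have hcpos : 0 ≤ c := by positivity
  refine Summable.of_nonneg_of_le (fun k => ?_) (fun k => ?_) (hs.mul_left (c / 8))
  · exact mul_nonneg (Real.rpow_nonneg (Nat.cast_nonneg _) _)
      (integral_nonneg fun x => by positivity)
  · have h1 : ∫ x, ‖n k • x‖ ^ 2 ∂ν = c * ∫ x in Torsᶜ, ‖n k • x‖ ^ 2 ∂μ := by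
      rw [hν, integral_smul_measure, ENNReal.toReal_inv, smul_eq_mul]
    have hint : Integrable (fun x : UnitAddCircle => ‖n k • x‖ ^ 2) μ :=
      Pool.Agent.H261R2.FU.int_sq_cont (by fun_prop)
    have h2 : ∫ x in Torsᶜ, ‖n k • x‖ ^ 2 ∂μ ≤ ∫ x, ‖n k • x‖ ^ 2 ∂μ :=
      setIntegral_le_integral hint (Filter.Eventually.of_forall fun x => by positivity)
    have h3 : 8 * ∫ x, ‖n k • x‖ ^ 2 ∂μ ≤ 1 - (∫ x, fourier (n k : ℤ) x ∂μ).re := by
      rw [int_re, ← integral_const_mul]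
      apply integral_mono (hint.const_mul _) (Pool.Agent.H261R2.FU.int_sq_cont (re_cont _))
      intro x
      have := re_lower (n k : ℤ) x
      rwa [natCast_zsmul] at this
    have h4 : ∫ x, ‖n k • x‖ ^ 2 ∂ν ≤ c / 8 * (1 - (∫ x, fourier (n k : ℤ) x ∂μ).re) := by
      rw [h1]
      calc c * ∫ x in Torsᶜ, ‖n k • x‖ ^ 2 ∂μ ≤ c * ∫ x, ‖n k • x‖ ^ 2 ∂μ := by gcongr
        _ = c / 8 * (8 * ∫ x, ‖n k • x‖ ^ 2 ∂μ) := by ring
        _ ≤ _ := by gcongr
    calc (N (k + 1) : ℝ) ^ κ * ∫ x, ‖n k • x‖ ^ 2 ∂ν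
        ≤ (N (k + 1) : ℝ) ^ κ * (c / 8 * (1 - (∫ x, fourier (n k : ℤ) x ∂μ).re)) :=
          mul_le_mul_of_nonneg_left h4 (Real.rpow_nonneg (Nat.cast_nonneg _) _)
      _ = c / 8 * ((N (k + 1) : ℝ) ^ κ * (1 - (∫ x, fourier (n k : ℤ) x ∂μ).re)) := by ring

end Pool.Agent.N254.SP
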