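import Mathlib
import Pool.Agent.N254.SP.Sparse

/-!
Almost periods in every block `[N, N ^ C]` of scales.
-/

set_option autoImplicit false

open MeasureTheory Real Filter Topology

namespace Pool.Agent.N254.SP

open Pool.Agent.H261R2.FU Pool.Agent.TH654.FC

theorem blocks {p q : ℕ} (hp : 2 ≤ p) (hq : 2 ≤ q) {κ₀ : ℝ} (h0 : 0 ≤ κ₀)
    (hNC : ∀ κ : ℝ, κ₀ < κ → NC p q κ) (μ : Measure UnitAddCircle) [IsProbabilityMeasure μ]
    (hμp : MeasurePreserving (fun x : UnitAddCircle => p • x) μ μ)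
    (hμq : MeasurePreserving (fun x : UnitAddCircle => q • x) μ μ) {C s : ℝ} (hC : 1 ≤ C)
    (hs : C * κ₀ < s)
    (H : ∀ᶠ N : ℕ in atTop, ∃ M : ℕ, N ≤ M ∧ (M : ℝ) ≤ (N : ℝ) ^ C ∧ ∃ n : ℕ, 1 ≤ n ∧ n ≤ 2 ^ M ∧
      1 - (∫ x, fourier (n : ℤ) x ∂μ).re ≤ (M : ℝ) ^ (-s)) : μ Tors = 1 := by
  have hC0 : 0 < C := by linarith
  obtain ⟨κ, hκ1, hκ2⟩ : ∃ κ, κ₀ < κ ∧ κ < s / C := exists_between (by
    rw [lt_div_iff₀ hC0]; linarith)
  rw [lt_div_iff₀ hC0] at hκ2
  have hκ0 : 0 < κ := lt_of_le_of_lt h0 hκ1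
  obtain ⟨N0, hN0⟩ := eventually_atTop.mp H
  choose! M hM1 hM2 n hn1 hn2 hn3 using hN0
  set S : ℕ → ℕ := fun k => Nat.rec (max N0 1) (fun _ a => 2 * M a) k with hS
  have hS0 : S 0 = max N0 1 := rfl
  have hSs : ∀ k, S (k + 1) = 2 * M (S k) := fun k => rfl
  have hSge : ∀ k, N0 ≤ S k ∧ 2 ^ k ≤ S k := by
    intro k
    induction k with
    | zero => rw [hS0]; exact ⟨le_max_left _ _, by rw [pow_zero]; exact le_max_right _ _⟩
    | succ k ih =>
      have h1 := hM1 (S k) ih.1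
      rw [hSs, pow_succ]
      have : 1 ≤ 2 ^ k := Nat.one_le_two_pow
      constructor <;> omega
  have hpos : ∀ k, 1 ≤ S k := fun k => le_trans Nat.one_le_two_pow (hSge k).2
  set N' : ℕ → ℕ := fun k => M (S k) with hN'
  have hN'ge : ∀ k, S k ≤ N' k := fun k => hM1 (S k) (hSge k).1
  have hmono : StrictMono N' := by
    apply strictMono_nat_of_lt_succ
    intro k
    have h1 := hN'ge (k + 1)
    rw [hSs] at h1
    have h2 := hN'ge k
    have h3 := hpos k
    have h4 : N' k = M (S k) := rfl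
    omega
  refine sparse hp hq (hNC κ hκ1) μ hμp hμq N' (fun k => n (S k)) hmono
    (fun k => ⟨hn1 (S k) (hSge k).1, hn2 (S k) (hSge k).1⟩) ?_
  set θ : ℝ := s - C * κ with hθ
  have hθ0 : 0 < θ := by rw [hθ]; linarith
  have hr : (2 : ℝ) ^ (-θ) < 1 := Real.rpow_lt_one_of_one_lt_of_neg (by norm_num) (by linarith)
  have hgeo : Summable (fun k : ℕ => (2 : ℝ) ^ (C * κ) * ((2 : ℝ) ^ (-θ)) ^ k) :=
    (summable_geometric_of_lt_one (Real.rpow_nonneg (by norm_num) _) hr).mul_left _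
  refine Summable.of_nonneg_of_le (fun k => ?_) (fun k => ?_) hgeo
  · apply mul_nonneg (Real.rpow_nonneg (Nat.cast_nonneg _) _)
    rw [int_re]
    apply integral_nonneg
    intro x
    have := re_lower (n (S k) : ℤ) x
    exact le_trans (by positivity) this
  · have h1 := hn3 (S k) (hSge k).1
    have h2 := hM2 (S (k + 1)) (hSge (k + 1)).1
    have hNk : (0 : ℝ) < (N' k : ℝ) := by
      have h3 := hN'ge k
      have h4 := hpos k
      exact_mod_cast (by omega : 0 < N' k)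
    have h3 : (N' (k + 1) : ℝ) ≤ (2 * (N' k : ℝ)) ^ C := by
      have e : ((S (k + 1) : ℕ) : ℝ) = 2 * (N' k : ℝ) := by rw [hSs]; push_cast; rfl
      rw [← e]; exact h2
    have h4 : (N' (k + 1) : ℝ) ^ κ ≤ (2 * (N' k : ℝ)) ^ (C * κ) := by
      rw [Real.rpow_mul (by positivity)]
      exact Real.rpow_le_rpow (Nat.cast_nonneg _) h3 hκ0.le
    have h5 : (2 : ℝ) ^ k ≤ N' k := by
      have h6 := (hSge k).2
      have h7 := hN'ge k
      exact_mod_cast h6.trans h7
    calc (N' (k + 1) : ℝ) ^ κ * (1 - (∫ x, fourier (n (S k) : ℤ) x ∂μ).re)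
        ≤ (2 * (N' k : ℝ)) ^ (C * κ) * (N' k : ℝ) ^ (-s) := by
          apply mul_le_mul h4 h1
          · rw [int_re]
            apply integral_nonneg
            intro x
            have := re_lower (n (S k) : ℤ) x
            exact le_trans (by positivity) this
          · exact Real.rpow_nonneg (by positivity) _
      _ = (2 : ℝ) ^ (C * κ) * (N' k : ℝ) ^ (-θ) := by
          rw [Real.mul_rpow (by norm_num) hNk.le, mul_assoc, ← Real.rpow_add hNk]
          congr 2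
          rw [hθ]; ring
      _ ≤ (2 : ℝ) ^ (C * κ) * ((2 : ℝ) ^ (-θ)) ^ k := by
          apply mul_le_mul_of_nonneg_left _ (Real.rpow_nonneg (by norm_num) _)
          rw [← Real.rpow_natCast, ← Real.rpow_mul (by norm_num), mul_comm (-θ) (k : ℝ),
            Real.rpow_mul (by norm_num), Real.rpow_natCast]
          exact Real.rpow_le_rpow_of_nonpos (by positivity) h5 (by linarith)

end Pool.Agent.N254.SP
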