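import Mathlib
import Pool.Agent.TH654.FC.Erg
import Pool.Agent.N254.UD.Ball

/-!
Codings of rotations of compact abelian groups.
-/

set_option autoImplicit false

open MeasureTheory Real Filter Topology

namespace Pool.Agent.N254.SP

open Pool.Agent.H261R2.FU Pool.Agent.TH654.FC

variable {K : Type*} [NormedAddCommGroup K] [MeasurableSpace K] [BorelSpace K]

/-- translations preserve the measure -/
lemma mp_add (m : Measure K) [m.IsAddLeftInvariant] (g : K) :
    MeasurePreserving (fun y : K => y + g) m m := measurePreserving_add_right m g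

/-- the coding along the orbit -/
lemma code_iter (m : Measure K) [m.IsAddLeftInvariant] {φ : K → UnitAddCircle} {α : K} {p : ℕ}
    (hα : ∀ᵐ y ∂m, φ (y + α) = p • φ y) (i : ℕ) : ∀ᵐ y ∂m, φ (y + i • α) = p ^ i • φ y := by
  induction i with
  | zero => simp
  | succ i ih =>
    have h1 := (mp_add m (i • α)).quasiMeasurePreserving.ae hα
    filter_upwards [h1, ih] with y h1 h2
    have e : y + (i + 1) • α = y + i • α + α := by rw [succ_nsmul, add_assoc]
    rw [e, h1, h2, smul_smul, pow_succ']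

lemma code_iter2 (m : Measure K) [m.IsAddLeftInvariant] {φ : K → UnitAddCircle} {α β : K}
    {p q : ℕ} (hα : ∀ᵐ y ∂m, φ (y + α) = p • φ y) (hβ : ∀ᵐ y ∂m, φ (y + β) = q • φ y) (i j : ℕ) :
    ∀ᵐ y ∂m, φ (y + (i • α + j • β)) = (p ^ i * q ^ j) • φ y := by
  have h1 := (mp_add m (j • β)).quasiMeasurePreserving.ae (code_iter m hα i)
  filter_upwards [h1, code_iter m hβ j] with y h1 h2
  have e : y + (i • α + j • β) = y + j • β + i • α := by abel
  rw [e, h1, h2, smul_smul]

/-- the law is invariant -/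
lemma law_inv (m : Measure K) [m.IsAddLeftInvariant] {φ : K → UnitAddCircle} (hφ : Measurable φ)
    {α : K} {p : ℕ} (hα : ∀ᵐ y ∂m, φ (y + α) = p • φ y) :
    MeasurePreserving (fun x : UnitAddCircle => p • x) (m.map φ) (m.map φ) := by
  have hp : Measurable (fun x : UnitAddCircle => p • x) := by fun_prop
  refine ⟨hp, ?_⟩
  rw [Measure.map_map hp hφ]
  have h1 : (fun x : UnitAddCircle => p • x) ∘ φ =ᵐ[m] φ ∘ (fun y => y + α) := by
    filter_upwards [hα] with y hy
    exact hy.symm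
  rw [Measure.map_congr h1, ← Measure.map_map hφ (mp_add m α).measurable, (mp_add m α).map_eq]

lemma norm_le_half (x : UnitAddCircle) : ‖x‖ ≤ 1 / 2 := by
  have := AddCircle.norm_le_half_period (p := (1 : ℝ)) (x := x) one_ne_zero
  rwa [abs_one] at this

/-- the almost period of two close translations -/
lemma period_le (m : Measure K) [IsProbabilityMeasure m] [m.IsAddLeftInvariant]
    {φ : K → UnitAddCircle} (hφ : Measurable φ) {C s : ℝ}
    (hmod : ∀ g : K, ∫ y, ‖φ (y + g) - φ y‖ ∂m ≤ C * ‖g‖ ^ s) {α β : K}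
    {p q : ℕ} (hα : ∀ᵐ y ∂m, φ (y + α) = p • φ y) (hβ : ∀ᵐ y ∂m, φ (y + β) = q • φ y)
    {i j k l : ℕ} (hlt : p ^ k * q ^ l < p ^ i * q ^ j) :
    1 - (∫ x, fourier ((p ^ i * q ^ j - p ^ k * q ^ l : ℕ) : ℤ) x ∂(m.map φ)).re ≤
      π ^ 2 * (C * ‖(i • α + j • β) - (k • α + l • β)‖ ^ s) := by
  set n : ℕ := p ^ i * q ^ j - p ^ k * q ^ l with hn
  have hprob : IsProbabilityMeasure (m.map φ) := Measure.isProbabilityMeasure_map hφ.aemeasurable
  set g := (i • α + j • β) - (k • α + l • β) with hg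
  set g' := k • α + l • β with hg'
  have hint : ∀ u : K, Integrable (fun y => ‖φ (y + u) - φ y‖) m := by
    intro u
    apply Integrable.of_bound (C := 1)
    · exact ((hφ.comp (mp_add m u).measurable).sub hφ).norm.aestronglyMeasurable
    · refine Filter.Eventually.of_forall fun y => ?_
      rw [norm_norm]
      have := norm_le_half (φ (y + u) - φ y)
      linarith
  -- pointwise
  have h1 : ∀ᵐ y ∂m, n • φ y = φ (y + g' + g) - φ (y + g') := by
    filter_upwards [code_iter2 m hα hβ i j, code_iter2 m hα hβ k l] with y h1 h2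
    have e : y + g' + g = y + (i • α + j • β) := by rw [hg]; abel
    rw [e, h1, h2, hn, sub_nsmul _ hlt.le]
    abel
  have h2 : ∫ x, ‖n • x‖ ∂(m.map φ) ≤ C * ‖g‖ ^ s := by
    rw [integral_map hφ.aemeasurable (by fun_prop)]
    have e1 : ∫ y, ‖n • φ y‖ ∂m = ∫ y, ‖φ (y + g' + g) - φ (y + g')‖ ∂m := by
      apply integral_congr_ae
      filter_upwards [h1] with y hy
      rw [hy]
    have e2 : ∫ y, ‖φ (y + g' + g) - φ (y + g')‖ ∂m = ∫ y, ‖φ (y + g) - φ y‖ ∂m := by
      have h3 := (mp_add m g').map_eq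
      conv_rhs => rw [← h3]
      rw [integral_map (mp_add m g').measurable.aemeasurable]
      rw [h3]
      exact (hint g).aestronglyMeasurable
    rw [e1, e2]
    exact hmod g
  rw [int_re]
  calc ∫ x, (1 - (fourier (n : ℤ) x).re) ∂(m.map φ) ≤ ∫ x, π ^ 2 * ‖n • x‖ ∂(m.map φ) := by
        apply integral_mono (int_sq_cont (re_cont _))
          (int_sq_cont (by fun_prop))
        intro x
        have h3 := re_upper (n : ℤ) x
        rw [natCast_zsmul] at h3
        refine h3.trans ?_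
        have h4 := norm_le_half (n • x)
        have h5 : ‖n • x‖ ^ 2 ≤ 1 / 2 * ‖n • x‖ := by
          rw [sq]
          exact mul_le_mul_of_nonneg_right h4 (norm_nonneg _)
        have h6 : 0 ≤ π ^ 2 := by positivity
        simp only
        nlinarith
    _ = π ^ 2 * ∫ x, ‖n • x‖ ∂(m.map φ) := integral_const_mul _ _
    _ ≤ _ := mul_le_mul_of_nonneg_left h2 (by positivity)

/-- **Codings of rotations.** -/
theorem coding {p q : ℕ} (hp : 2 ≤ p) (hq : 2 ≤ q)
    (hind : ∀ i j k l : ℕ, p ^ i * q ^ j = p ^ k * q ^ l → i = k ∧ j = l)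
    {κ₀ : ℝ} (h0 : 0 ≤ κ₀) (hNC : ∀ κ : ℝ, κ₀ < κ → NC p q κ)
    (m : Measure K) [IsProbabilityMeasure m] [m.IsAddLeftInvariant] {C D s : ℝ} (hD : 0 < D)
    (hs : 0 < s) (hDs : κ₀ * D < 2 * s)
    (hcov : ∀ h : ℝ, 0 < h → h ≤ 1 → ∃ F : Finset K, (F.card : ℝ) ≤ C * h ^ (-D) ∧
      ∀ g : K, ∃ f ∈ F, ‖g - f‖ ≤ h)
    {φ : K → UnitAddCircle} (hφ : Measurable φ)
    (hmod : ∀ g : K, ∫ y, ‖φ (y + g) - φ y‖ ∂m ≤ C * ‖g‖ ^ s) {α β : K}
    (hα : ∀ᵐ y ∂m, φ (y + α) = p • φ y) (hβ : ∀ᵐ y ∂m, φ (y + β) = q • φ y) :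
    ∀ᵐ y ∂m, ∃ n : ℕ, 1 ≤ n ∧ n • φ y = 0 := by
  classical
  have hprob : IsProbabilityMeasure (m.map φ) := Measure.isProbabilityMeasure_map hφ.aemeasurable
  have hC1 : 1 ≤ C := by
    obtain ⟨F, h1, h2⟩ := hcov 1 one_pos le_rfl
    obtain ⟨f, hf, -⟩ := h2 0
    have h3 : (1 : ℝ) ≤ F.card := by exact_mod_cast Finset.card_pos.2 ⟨f, hf⟩
    rw [Real.one_rpow, mul_one] at h1
    linarith
  obtain ⟨κ, hκ1, hκ2⟩ : ∃ κ, κ₀ < κ ∧ κ < 2 * s / D := exists_between (by
    rw [lt_div_iff₀ hD]; linarith)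
  obtain ⟨κ', hκ3, hκ4⟩ := exists_between hκ2
  have key : (m.map φ) Tors = 1 := by
    refine atomic_of_rate hp hq (hNC κ hκ1) (m.map φ) (law_inv m hφ hα) (law_inv m hφ hβ) hκ3 ?_
    set c : ℕ := p * q with hc
    have hc1 : 4 ≤ c := by rw [hc]; nlinarith
    have hcR : (0 : ℝ) < c := by exact_mod_cast (by omega : 0 < c)
    set B : ℝ := π ^ 2 * (C * (2 * ((C + 1) * (c : ℝ) ^ 2) ^ (1 / D)) ^ s) with hB
    have hB0 : 0 ≤ B := by positivity
    have hlim : Tendsto (fun N : ℕ => (N : ℝ) ^ (2 * s / D - κ')) atTop atTop :=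
      (tendsto_rpow_atTop (by linarith)).comp tendsto_natCast_atTop_atTop
    obtain ⟨N1, hN1⟩ := exists_nat_ge (c * (C + 1))
    filter_upwards [hlim.eventually_ge_atTop B, eventually_ge_atTop (N1 + 1)] with N hNB hNN
    have hNpos : (0 : ℝ) < N := by exact_mod_cast (by omega : 0 < N)
    set R : ℕ := N / c with hR
    have hcRN : c * R ≤ N := Nat.mul_div_le N c
    have hR1 : (N : ℝ) / c ≤ R + 1 := by
      rw [div_le_iff₀ hcR]
      have : N < (R + 1) * c := by
        rw [hR, mul_comm]; exact Nat.lt_mul_div_succ N (by omega)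
      have h2 : (N : ℝ) < (R + 1) * c := by exact_mod_cast this
      exact h2.le
    have hR1' : C + 1 ≤ (R : ℝ) + 1 := by
      refine le_trans ?_ hR1
      rw [le_div_iff₀ hcR]
      have : (N1 : ℝ) ≤ N := by exact_mod_cast (by omega : N1 ≤ N)
      linarith
    set X : ℝ := ((R : ℝ) + 1) ^ 2 / (C + 1) with hX
    have hX1 : 1 ≤ X := by
      rw [hX, le_div_iff₀ (by linarith)]
      nlinarith
    set h : ℝ := X ^ (-(1 / D)) with hh
    have hh0 : 0 < h := Real.rpow_pos_of_pos (by linarith) _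
    have hh1 : h ≤ 1 := Real.rpow_le_one_of_one_le_of_nonpos hX1 (by
      have : 0 < 1 / D := by positivity
      linarith)
    have hhD : h ^ (-D) = X := by
      rw [hh, ← Real.rpow_mul (by linarith)]
      have e : -(1 / D) * -D = 1 := by field_simp
      rw [e, Real.rpow_one]
    obtain ⟨F, hF1, hF2⟩ := hcov h hh0 hh1
    choose f hfF hf using hF2
    -- pigeonhole
    have hcard : F.card < (Finset.range (R + 1) ×ˢ Finset.range (R + 1)).card := by
      rw [Finset.card_product, Finset.card_range]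
      have h1 : (F.card : ℝ) < ((R + 1) * (R + 1) : ℕ) := by
        refine lt_of_le_of_lt hF1 ?_
        rw [hhD, hX]
        push_cast
        rw [← mul_div_assoc, div_lt_iff₀ (by linarith)]
        nlinarith [sq_nonneg ((R : ℝ) + 1)]
      exact_mod_cast h1
    obtain ⟨u, hu, v, hv, huv, huv2⟩ := Finset.exists_ne_map_eq_of_card_lt_of_maps_to hcard
      (f := fun u : ℕ × ℕ => f (u.1 • α + u.2 • β)) (fun u _ => hfF _)
    have hle : ∀ u v : ℕ × ℕ, f (u.1 • α + u.2 • β) = f (v.1 • α + v.2 • β) →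
        ‖(u.1 • α + u.2 • β) - (v.1 • α + v.2 • β)‖ ≤ 2 * h := by
      intro u v huv2
      have e : (u.1 • α + u.2 • β) - (v.1 • α + v.2 • β) =
          ((u.1 • α + u.2 • β) - f (u.1 • α + u.2 • β)) -
          ((v.1 • α + v.2 • β) - f (v.1 • α + v.2 • β)) := by rw [huv2]; abel
      rw [e]
      refine (norm_sub_le _ _).trans ?_
      have h1 := hf (u.1 • α + u.2 • β)
      have h2 := hf (v.1 • α + v.2 • β)
      linarith
    have hsize : ∀ u : ℕ × ℕ, u ∈ Finset.range (R + 1) ×ˢ Finset.range (R + 1) →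
        p ^ u.1 * q ^ u.2 ≤ 2 ^ N := by
      intro u hu
      rw [Finset.mem_product, Finset.mem_range, Finset.mem_range] at hu
      calc p ^ u.1 * q ^ u.2 ≤ p ^ R * q ^ R :=
            Nat.mul_le_mul (Nat.pow_le_pow_right (by omega) (by omega))
              (Nat.pow_le_pow_right (by omega) (by omega))
        _ = c ^ R := by rw [hc, mul_pow]
        _ ≤ (2 ^ c) ^ R := Nat.pow_le_pow_left (Nat.lt_two_pow_self).le _
        _ = 2 ^ (c * R) := by rw [← pow_mul]
        _ ≤ 2 ^ N := Nat.pow_le_pow_right (by norm_num) hcRN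
    have hfin : ∀ g : K, ‖g‖ ≤ 2 * h → π ^ 2 * (C * ‖g‖ ^ s) ≤ (N : ℝ) ^ (-κ') := by
      intro g hg
      have h1 : ‖g‖ ^ s ≤ (2 * h) ^ s := Real.rpow_le_rpow (norm_nonneg _) hg hs.le
      have h2 : h ≤ ((C + 1) * (c : ℝ) ^ 2) ^ (1 / D) * (N : ℝ) ^ (-(2 / D)) := by
        have h3 : ((N : ℝ) / c) ^ 2 / (C + 1) ≤ X := by
          rw [hX]
          apply div_le_div_of_nonneg_right _ (by linarith)
          exact pow_le_pow_left₀ (by positivity) hR1 2
        have h4 : h ≤ (((N : ℝ) / c) ^ 2 / (C + 1)) ^ (-(1 / D)) := by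
          rw [hh]
          apply Real.rpow_le_rpow_of_nonpos (by positivity) h3
          have : 0 < 1 / D := by positivity
          linarith
        refine h4.trans (le_of_eq ?_)
        have e : ((N : ℝ) / c) ^ 2 / (C + 1) = (N : ℝ) ^ 2 * ((C + 1) * (c : ℝ) ^ 2)⁻¹ := by
          field_simp
        rw [e, Real.mul_rpow (by positivity) (by positivity), Real.inv_rpow (by positivity),
          Real.rpow_neg (by positivity : (0 : ℝ) ≤ (C + 1) * (c : ℝ) ^ 2), inv_inv, mul_comm]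
        congr 1
        rw [← Real.rpow_natCast, ← Real.rpow_mul hNpos.le]
        congr 1
        push_cast; ring
      have h5 : (2 * h) ^ s ≤ (2 * ((C + 1) * (c : ℝ) ^ 2) ^ (1 / D)) ^ s *
          (N : ℝ) ^ (-(2 * s / D)) := by
        calc (2 * h) ^ s ≤ (2 * (((C + 1) * (c : ℝ) ^ 2) ^ (1 / D) * (N : ℝ) ^ (-(2 / D)))) ^ s := by
              apply Real.rpow_le_rpow (by positivity) _ hs.le
              linarith
          _ = _ := by
              rw [← mul_assoc, Real.mul_rpow (by positivity) (by positivity),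
                ← Real.rpow_mul hNpos.le]
              congr 2
              ring
      calc π ^ 2 * (C * ‖g‖ ^ s) ≤ π ^ 2 * (C * ((2 * ((C + 1) * (c : ℝ) ^ 2) ^ (1 / D)) ^ s *
            (N : ℝ) ^ (-(2 * s / D)))) := by
            have hC0 : 0 ≤ C := by linarith
            gcongr
            exact h1.trans h5
        _ = B * (N : ℝ) ^ (-(2 * s / D)) := by rw [hB]; ring
        _ ≤ (N : ℝ) ^ (2 * s / D - κ') * (N : ℝ) ^ (-(2 * s / D)) :=
            mul_le_mul_of_nonneg_right hNB (Real.rpow_nonneg hNpos.le _)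
        _ = (N : ℝ) ^ (-κ') := by
            rw [← Real.rpow_add hNpos]; congr 1; ring
    have hfin2 : ∀ u v : ℕ × ℕ, u ∈ Finset.range (R + 1) ×ˢ Finset.range (R + 1) →
        f (u.1 • α + u.2 • β) = f (v.1 • α + v.2 • β) → p ^ v.1 * q ^ v.2 < p ^ u.1 * q ^ u.2 →
        ∃ n : ℕ, 1 ≤ n ∧ n ≤ 2 ^ N ∧
          1 - (∫ x, fourier (n : ℤ) x ∂(m.map φ)).re ≤ (N : ℝ) ^ (-κ') := by
      intro u v hu huv2 hlt
      refine ⟨p ^ u.1 * q ^ u.2 - p ^ v.1 * q ^ v.2, by omega, ?_, ?_⟩
      · exact (Nat.sub_le _ _).trans (hsize u hu)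
      · exact (period_le m hφ hmod hα hβ hlt).trans (hfin _ (hle u v huv2))
    have hne : p ^ u.1 * q ^ u.2 ≠ p ^ v.1 * q ^ v.2 := by
      intro h1
      obtain ⟨h2, h3⟩ := hind _ _ _ _ h1
      exact huv (Prod.ext h2 h3)
    rcases lt_or_gt_of_ne hne with hlt | hlt
    · exact hfin2 v u hv huv2.symm hlt
    · exact hfin2 u v hu huv2 hlt
  have h1 : (m.map φ) Torsᶜ = 0 := by
    rw [prob_compl_eq_zero_iff tors_meas]; exact key
  rw [Measure.map_apply hφ tors_meas.compl] at h1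
  rw [ae_iff]
  refine measure_mono_null ?_ h1
  intro y hy
  exact hy

end Pool.Agent.N254.SP
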