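import Mathlib
import Pool.Agent.N254.SP.Coding
import Pool.Agent.N254.SP.Blocks

/-!
Codings of rotations of compact abelian groups, with hypotheses on sparse scales.
-/

set_option autoImplicit false

open MeasureTheory Real Filter Topology

namespace Pool.Agent.N254.SP

open Pool.Agent.H261R2.FU Pool.Agent.TH654.FC

variable {K : Type*} [NormedAddCommGroup K] [MeasurableSpace K] [BorelSpace K]

/-- the almost period of two close translations, local modulus -/
lemma period_le' (m : Measure K) [IsProbabilityMeasure m] [m.IsAddLeftInvariant]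
    {φ : K → UnitAddCircle} (hφ : Measurable φ) {E : ℝ} {α β : K}
    {p q : ℕ} (hα : ∀ᵐ y ∂m, φ (y + α) = p • φ y) (hβ : ∀ᵐ y ∂m, φ (y + β) = q • φ y)
    {i j k l : ℕ} (hlt : p ^ k * q ^ l < p ^ i * q ^ j)
    (hmod : ∫ y, ‖φ (y + ((i • α + j • β) - (k • α + l • β))) - φ y‖ ∂m ≤ E) :
    1 - (∫ x, fourier ((p ^ i * q ^ j - p ^ k * q ^ l : ℕ) : ℤ) x ∂(m.map φ)).re ≤
      π ^ 2 * E := by
  set n : ℕ := p ^ i * q ^ j - p ^ k * q ^ l with hn
  have hprob : IsProbabilityMeasure (m.map φ) := Measure.isProbabilityMeasure_map hφ.aemeasurable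
  set g := (i • α + j • β) - (k • α + l • β) with hg
  set g' := k • α + l • β with hg'
  have hint : ∀ u : K, Integrable (fun y => ‖φ (y + u) - φ y‖) m := by
    intro u
    apply Integrable.of_bound (C := 1)
    · exact ((hφ.comp (mp_add m u).measurable).sub hφ).norm.aestronglyMeasurable
    · refine Filter.Eventually.of_forall fun y => ?_
      rw [norm_norm]
      have := norm_le_half (φ (y + u) - φ y)
      linarith
  have h1 : ∀ᵐ y ∂m, n • φ y = φ (y + g' + g) - φ (y + g') := by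
    filter_upwards [code_iter2 m hα hβ i j, code_iter2 m hα hβ k l] with y h1 h2
    have e : y + g' + g = y + (i • α + j • β) := by rw [hg]; abel
    rw [e, h1, h2, hn, sub_nsmul _ hlt.le]
    abel
  have h2 : ∫ x, ‖n • x‖ ∂(m.map φ) ≤ E := by
    rw [integral_map hφ.aemeasurable (by fun_prop)]
    have e1 : ∫ y, ‖n • φ y‖ ∂m = ∫ y, ‖φ (y + g' + g) - φ (y + g')‖ ∂m := by
      apply integral_congr_ae
      filter_upwards [h1] with y hy
      rw [hy]
    have e2 : ∫ y, ‖φ (y + g' + g) - φ (y + g')‖ ∂m = ∫ y, ‖φ (y + g) - φ y‖ ∂m := by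
      have h3 := (mp_add m g').map_eq
      conv_rhs => rw [← h3]
      rw [integral_map (mp_add m g').measurable.aemeasurable]
      rw [h3]
      exact (hint g).aestronglyMeasurable
    rw [e1, e2]
    exact hmod
  rw [int_re]
  calc ∫ x, (1 - (fourier (n : ℤ) x).re) ∂(m.map φ) ≤ ∫ x, π ^ 2 * ‖n • x‖ ∂(m.map φ) := by
        apply integral_mono (int_sq_cont (re_cont _))
          (int_sq_cont (by fun_prop))
        intro x
        have h3 := re_upper (n : ℤ) x
        rw [natCast_zsmul] at h3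
        refine h3.trans ?_
        have h4 := norm_le_half (n • x)
        have h5 : ‖n • x‖ ^ 2 ≤ 1 / 2 * ‖n • x‖ := by
          rw [sq]
          exact mul_le_mul_of_nonneg_right h4 (norm_nonneg _)
        have h6 : 0 ≤ π ^ 2 := by positivity
        simp only
        nlinarith
    _ = π ^ 2 * ∫ x, ‖n • x‖ ∂(m.map φ) := integral_const_mul _ _
    _ ≤ _ := mul_le_mul_of_nonneg_left h2 (by positivity)

/-- **Codings of rotations, sparse scales.** -/
theorem coding2 {p q : ℕ} (hp : 2 ≤ p) (hq : 2 ≤ q)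
    (hind : ∀ i j k l : ℕ, p ^ i * q ^ j = p ^ k * q ^ l → i = k ∧ j = l)
    {κ₀ : ℝ} (h0 : 0 ≤ κ₀) (hNC : ∀ κ : ℝ, κ₀ < κ → NC p q κ)
    (m : Measure K) [IsProbabilityMeasure m] [m.IsAddLeftInvariant]
    {φ : K → UnitAddCircle} (hφ : Measurable φ) {α β : K}
    (hα : ∀ᵐ y ∂m, φ (y + α) = p • φ y) (hβ : ∀ᵐ y ∂m, φ (y + β) = q • φ y)
    {C D s : ℝ} (hC : 1 ≤ C) (hD : 0 < D)
    (hs : 0 < s) (hDs : κ₀ * (C * D) < 2 * s)
    (hcov : ∀ h₀ : ℝ, 0 < h₀ → h₀ ≤ 1 → ∃ h : ℝ, h₀ ^ C ≤ h ∧ h ≤ h₀ ∧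
      (∃ F : Finset K, (F.card : ℝ) ≤ C * h ^ (-D) ∧ ∀ g : K, ∃ f ∈ F, ‖g - f‖ ≤ h) ∧
      ∀ g : K, ‖g‖ ≤ 2 * h → ∫ y, ‖φ (y + g) - φ y‖ ∂m ≤ C * h ^ s) :
    ∀ᵐ y ∂m, ∃ n : ℕ, 1 ≤ n ∧ n • φ y = 0 := by
  classical
  have hprob : IsProbabilityMeasure (m.map φ) := Measure.isProbabilityMeasure_map hφ.aemeasurable
  have hC0 : 0 < C := by linarith
  -- exponents
  obtain ⟨s1, hs1, hs2⟩ : ∃ s1, C * κ₀ < s1 ∧ s1 < 2 * s / D := exists_between (by
    rw [lt_div_iff₀ hD]; linarith)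
  have hs10 : 0 < s1 := lt_of_le_of_lt (by positivity) hs1
  obtain ⟨C1, hCC1, hC1⟩ : ∃ C1, C < C1 ∧ C1 * κ₀ < s1 := by
    rcases h0.eq_or_lt with h | h
    · exact ⟨C + 1, by linarith, by rw [← h, mul_zero]; exact hs10⟩
    · obtain ⟨C1, h1, h2⟩ : ∃ C1, C < C1 ∧ C1 < s1 / κ₀ := exists_between (by
        rw [lt_div_iff₀ h]; exact hs1)
      exact ⟨C1, h1, by rwa [lt_div_iff₀ h] at h2⟩
  have key : (m.map φ) Tors = 1 := by
    refine blocks hp hq h0 hNC (m.map φ) (law_inv m hφ hα) (law_inv m hφ hβ)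
      (C := C1) (s := s1) (by linarith) hC1 ?_
    set c : ℕ := p * q with hc
    have hc1 : 4 ≤ c := by rw [hc]; nlinarith
    have hcR : (4 : ℝ) ≤ c := by exact_mod_cast hc1
    set G : ℝ := c * (C + 3) with hG
    have hG0 : 0 < G := by positivity
    have hlim1 : Tendsto (fun N : ℕ => (N : ℝ) ^ (C1 - C)) atTop atTop :=
      (tendsto_rpow_atTop (by linarith)).comp tendsto_natCast_atTop_atTop
    have hlim2 : Tendsto (fun N : ℕ => (N : ℝ) ^ (2 * s / D - s1)) atTop atTop :=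
      (tendsto_rpow_atTop (by linarith)).comp tendsto_natCast_atTop_atTop
    filter_upwards [hlim1.eventually_ge_atTop G,
      hlim2.eventually_ge_atTop (π ^ 2 * C * G ^ (2 * s / D)), eventually_ge_atTop 1]
      with N hNG hNB hN1
    have hN1R : (1 : ℝ) ≤ N := by exact_mod_cast hN1
    have hNpos : (0 : ℝ) < N := by linarith
    set h₀ : ℝ := (N : ℝ) ^ (-(2 / D)) with hh₀
    have hh₀0 : 0 < h₀ := Real.rpow_pos_of_pos hNpos _
    have hh₀1 : h₀ ≤ 1 := Real.rpow_le_one_of_one_le_of_nonpos hN1R (by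
      have : 0 < 2 / D := by positivity
      linarith)
    obtain ⟨h, hh1, hh2, ⟨F, hF1, hF2⟩, hmod⟩ := hcov h₀ hh₀0 hh₀1
    have hh0 : 0 < h := lt_of_lt_of_le (Real.rpow_pos_of_pos hh₀0 _) hh1
    have hhle1 : h ≤ 1 := hh2.trans hh₀1
    -- `Y = h ^ (-D/2)`, between `N` and `N ^ C`
    set Y : ℝ := h ^ (-(D / 2)) with hY
    have hY1 : (N : ℝ) ≤ Y := by
      have e : (N : ℝ) = h₀ ^ (-(D / 2)) := by
        rw [hh₀, ← Real.rpow_mul hNpos.le]
        have : -(2 / D) * -(D / 2) = 1 := by field_simp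
        rw [this, Real.rpow_one]
      rw [e, hY]
      exact Real.rpow_le_rpow_of_nonpos hh0 hh2 (by
        have : 0 < D / 2 := by positivity
        linarith)
    have hY2 : Y ≤ (N : ℝ) ^ C := by
      have e : (N : ℝ) ^ C = (h₀ ^ C) ^ (-(D / 2)) := by
        rw [hh₀, ← Real.rpow_mul hNpos.le, ← Real.rpow_mul hNpos.le]
        congr 1
        field_simp
      rw [e, hY]
      exact Real.rpow_le_rpow_of_nonpos (Real.rpow_pos_of_pos hh₀0 _) hh1 (by
        have : 0 < D / 2 := by positivity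
        linarith)
    have hYpos : 0 < Y := by linarith
    have hYsq : h ^ (-D) = Y ^ 2 := by
      rw [hY, ← Real.rpow_natCast, ← Real.rpow_mul hh0.le]
      congr 1
      push_cast; ring
    set R : ℕ := ⌈C * Y⌉₊ with hR
    have hRlow : C * Y ≤ R := Nat.le_ceil _
    have hRup : (R : ℝ) ≤ C * Y + 1 := (Nat.ceil_lt_add_one (by positivity)).le
    have hRY : Y ≤ R := by nlinarith
    choose f hfF hf using hF2
    have hcard : F.card < (Finset.range (R + 1) ×ˢ Finset.range (R + 1)).card := by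
      rw [Finset.card_product, Finset.card_range]
      have h1 : (F.card : ℝ) < ((R + 1) * (R + 1) : ℕ) := by
        refine lt_of_le_of_lt hF1 ?_
        rw [hYsq]
        push_cast
        have h2 : C * Y * Y ≤ R * R := mul_le_mul hRlow hRY hYpos.le (Nat.cast_nonneg _)
        have h3 : (0 : ℝ) ≤ R := Nat.cast_nonneg _
        nlinarith
      exact_mod_cast h1
    obtain ⟨u, hu, v, hv, huv, huv2⟩ := Finset.exists_ne_map_eq_of_card_lt_of_maps_to hcard
      (f := fun u : ℕ × ℕ => f (u.1 • α + u.2 • β)) (fun u _ => hfF _)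
    have hle : ∀ u v : ℕ × ℕ, f (u.1 • α + u.2 • β) = f (v.1 • α + v.2 • β) →
        ‖(u.1 • α + u.2 • β) - (v.1 • α + v.2 • β)‖ ≤ 2 * h := by
      intro u v huv2
      have e : (u.1 • α + u.2 • β) - (v.1 • α + v.2 • β) =
          ((u.1 • α + u.2 • β) - f (u.1 • α + u.2 • β)) -
          ((v.1 • α + v.2 • β) - f (v.1 • α + v.2 • β)) := by rw [huv2]; abel
      rw [e]
      refine (norm_sub_le _ _).trans ?_
      have h1 := hf (u.1 • α + u.2 • β)
      have h2 := hf (v.1 • α + v.2 • β)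
      linarith
    set M : ℕ := c * (R + 1) with hM
    have hMR : (M : ℝ) = c * (R + 1) := by rw [hM]; push_cast; ring
    have hMY : (M : ℝ) ≤ G * Y := by
      rw [hMR, hG]
      have h1 : (R : ℝ) + 1 ≤ (C + 3) * Y := by nlinarith
      calc (c : ℝ) * (R + 1) ≤ c * ((C + 3) * Y) := by gcongr
        _ = c * (C + 3) * Y := by ring
    have hMN : (N : ℝ) ≤ M := by
      rw [hMR]
      have h1 : (R : ℝ) ≤ c * (R + 1) := by nlinarith [(Nat.cast_nonneg R : (0 : ℝ) ≤ R)]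
      linarith
    have hMpos : (0 : ℝ) < M := by linarith
    have hsize : ∀ u : ℕ × ℕ, u ∈ Finset.range (R + 1) ×ˢ Finset.range (R + 1) →
        p ^ u.1 * q ^ u.2 ≤ 2 ^ M := by
      intro u hu
      rw [Finset.mem_product, Finset.mem_range, Finset.mem_range] at hu
      calc p ^ u.1 * q ^ u.2 ≤ p ^ (R + 1) * q ^ (R + 1) :=
            Nat.mul_le_mul (Nat.pow_le_pow_right (by omega) (by omega))
              (Nat.pow_le_pow_right (by omega) (by omega))
        _ = c ^ (R + 1) := by rw [hc, mul_pow]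
        _ ≤ (2 ^ c) ^ (R + 1) := Nat.pow_le_pow_left (Nat.lt_two_pow_self).le _
        _ = 2 ^ M := by rw [← pow_mul]
    have hfin : π ^ 2 * (C * h ^ s) ≤ (M : ℝ) ^ (-s1) := by
      have h1 : h = Y ^ (-(2 / D)) := by
        rw [hY, ← Real.rpow_mul hh0.le]
        have : -(D / 2) * -(2 / D) = 1 := by field_simp
        rw [this, Real.rpow_one]
      have h2 : h ^ s = Y ^ (-(2 * s / D)) := by
        rw [h1, ← Real.rpow_mul hYpos.le]
        congr 1
        ring
      have h3 : Y ^ (-(2 * s / D)) ≤ ((M : ℝ) / G) ^ (-(2 * s / D)) := by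
        apply Real.rpow_le_rpow_of_nonpos (by positivity)
        · rw [div_le_iff₀ hG0]; linarith
        · have : 0 < 2 * s / D := by positivity
          linarith
      have h4 : ((M : ℝ) / G) ^ (-(2 * s / D)) = G ^ (2 * s / D) * (M : ℝ) ^ (-(2 * s / D)) := by
        rw [Real.div_rpow hMpos.le hG0.le, Real.rpow_neg hG0.le, div_inv_eq_mul, mul_comm]
      have h5 : π ^ 2 * C * G ^ (2 * s / D) ≤ (M : ℝ) ^ (2 * s / D - s1) :=
        hNB.trans (Real.rpow_le_rpow hNpos.le hMN (by linarith))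
      calc π ^ 2 * (C * h ^ s) ≤ π ^ 2 * (C * (G ^ (2 * s / D) * (M : ℝ) ^ (-(2 * s / D)))) := by
            rw [h2, ← h4]; gcongr
        _ = (π ^ 2 * C * G ^ (2 * s / D)) * (M : ℝ) ^ (-(2 * s / D)) := by ring
        _ ≤ (M : ℝ) ^ (2 * s / D - s1) * (M : ℝ) ^ (-(2 * s / D)) :=
            mul_le_mul_of_nonneg_right h5 (Real.rpow_nonneg hMpos.le _)
        _ = (M : ℝ) ^ (-s1) := by
            rw [← Real.rpow_add hMpos]; congr 1; ring
    refine ⟨M, by exact_mod_cast hMN, ?_, ?_⟩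
    · calc (M : ℝ) ≤ G * Y := hMY
        _ ≤ (N : ℝ) ^ (C1 - C) * (N : ℝ) ^ C := mul_le_mul hNG hY2 hYpos.le (by positivity)
        _ = (N : ℝ) ^ C1 := by rw [← Real.rpow_add hNpos]; congr 1; ring
    have hfin2 : ∀ u v : ℕ × ℕ, u ∈ Finset.range (R + 1) ×ˢ Finset.range (R + 1) →
        f (u.1 • α + u.2 • β) = f (v.1 • α + v.2 • β) → p ^ v.1 * q ^ v.2 < p ^ u.1 * q ^ u.2 →
        ∃ n : ℕ, 1 ≤ n ∧ n ≤ 2 ^ M ∧
          1 - (∫ x, fourier (n : ℤ) x ∂(m.map φ)).re ≤ (M : ℝ) ^ (-s1) := by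
      intro u v hu huv2 hlt
      refine ⟨p ^ u.1 * q ^ u.2 - p ^ v.1 * q ^ v.2, by omega, ?_, ?_⟩
      · exact (Nat.sub_le _ _).trans (hsize u hu)
      · exact (period_le' m hφ hα hβ hlt (hmod _ (hle u v huv2))).trans hfin
    have hne : p ^ u.1 * q ^ u.2 ≠ p ^ v.1 * q ^ v.2 := by
      intro h1
      obtain ⟨h2, h3⟩ := hind _ _ _ _ h1
      exact huv (Prod.ext h2 h3)
    rcases lt_or_gt_of_ne hne with hlt | hlt
    · exact hfin2 v u hv huv2.symm hlt
    · exact hfin2 u v hu huv2 hlt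
  have h1 : (m.map φ) Torsᶜ = 0 := by
    rw [prob_compl_eq_zero_iff tors_meas]; exact key
  rw [Measure.map_apply hφ tors_meas.compl] at h1
  rw [ae_iff]
  refine measure_mono_null ?_ h1
  intro y hy
  exact hy

end Pool.Agent.N254.SP
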