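import Mathlib

/-!
Multiplicative independence.
-/

set_option autoImplicit false

namespace Pool.Agent.N254.SP

lemma ind_of_irr {p q : ℕ} (hp : 2 ≤ p) (hq : 2 ≤ q)
    (hirr : Irrational (Real.log (p : ℝ) / Real.log (q : ℝ))) (i j k l : ℕ)
    (h : p ^ i * q ^ j = p ^ k * q ^ l) : i = k ∧ j = l := by
  have hlp : 0 < Real.log p := Real.log_pos (by exact_mod_cast (by omega : 1 < p))
  have hlq : 0 < Real.log q := Real.log_pos (by exact_mod_cast (by omega : 1 < q))
  have h1 : (i : ℝ) * Real.log p + j * Real.log q = k * Real.log p + l * Real.log q := by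
    have h2 : Real.log ((p : ℝ) ^ i * (q : ℝ) ^ j) = Real.log ((p : ℝ) ^ k * (q : ℝ) ^ l) := by
      congr 1
      exact_mod_cast h
    rwa [Real.log_mul (by positivity) (by positivity), Real.log_mul (by positivity) (by positivity),
      Real.log_pow, Real.log_pow, Real.log_pow, Real.log_pow] at h2
  by_cases hik : i = k
  · refine ⟨hik, ?_⟩
    rw [hik] at h1
    have h2 : (j : ℝ) * Real.log q = l * Real.log q := by linarith
    exact_mod_cast mul_right_cancel₀ hlq.ne' h2
  · exfalso
    apply hirr
    refine ⟨((l : ℚ) - j) / ((i : ℚ) - k), ?_⟩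
    have h3 : (i : ℝ) - k ≠ 0 := by
      rw [sub_ne_zero]
      exact_mod_cast hik
    push_cast
    rw [div_eq_div_iff h3 hlq.ne']
    linarith

end Pool.Agent.N254.SP
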